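import Mathlib

set_option autoImplicit false

/-!
# The Thue–Morse sequence along polynomials: basic tools
-/

namespace Pool.Agent.H322Z.TM

open Polynomial Finset

/-- binary digit sum modulo two -/
def t (n : ℕ) : ZMod 2 := (((Nat.digits 2 n).sum : ℕ) : ZMod 2)

theorem t_zero : t 0 = 0 := by simp [t]

theorem t_two_mul (n : ℕ) : t (2 * n) = t n := by
  rcases Nat.eq_zero_or_pos n with rfl | hn
  · simp
  · unfold t
    rw [Nat.digits_def' (by norm_num) (by omega)]
    simp

theorem t_two_mul_add_one (n : ℕ) : t (2 * n + 1) = t n + 1 := by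
  unfold t
  rw [Nat.digits_def' (by norm_num) (by omega)]
  have h1 : (2 * n + 1) % 2 = 1 := by omega
  have h2 : (2 * n + 1) / 2 = n := by omega
  rw [h1, h2]
  simp [add_comm]

theorem t_one : t 1 = 1 := by
  have := t_two_mul_add_one 0
  simpa [t_zero] using this

theorem t_two_pow_mul (j n : ℕ) : t (2 ^ j * n) = t n := by
  induction j with
  | zero => simp
  | succ j ih => rw [pow_succ', mul_assoc, t_two_mul, ih]

theorem t_add (L : ℕ) : ∀ x y : ℕ, x < 2 ^ L → t (x + 2 ^ L * y) = t x + t y := by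
  induction L with
  | zero =>
    intro x y hx
    have : x = 0 := by omega
    subst this
    simp [t_zero]
  | succ L ih =>
    intro x y hx
    rcases Nat.even_or_odd' x with ⟨u, rfl | rfl⟩
    · have hu : u < 2 ^ L := by rw [pow_succ] at hx; omega
      have : 2 * u + 2 ^ (L + 1) * y = 2 * (u + 2 ^ L * y) := by ring
      rw [this, t_two_mul, t_two_mul, ih u y hu]
    · have hu : u < 2 ^ L := by rw [pow_succ] at hx; omega
      have : 2 * u + 1 + 2 ^ (L + 1) * y = 2 * (u + 2 ^ L * y) + 1 := by ring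
      rw [this, t_two_mul_add_one, t_two_mul_add_one, ih u y hu]
      ring

theorem t_sum (L D : ℕ) : ∀ c : ℕ → ℕ, (∀ r < D, c r < 2 ^ L) →
    t (∑ r ∈ range D, c r * (2 ^ L) ^ r) = ∑ r ∈ range D, t (c r) := by
  induction D with
  | zero => intro c _; simp [t_zero]
  | succ D ih =>
    intro c hc
    rw [sum_range_succ', sum_range_succ']
    have h1 : ∑ k ∈ range D, c (k + 1) * (2 ^ L) ^ (k + 1) + c 0 * (2 ^ L) ^ 0
        = c 0 + 2 ^ L * ∑ k ∈ range D, c (k + 1) * (2 ^ L) ^ k := by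
      rw [mul_sum, add_comm]
      congr 1
      · simp
      · exact sum_congr rfl fun k _ => by ring
    rw [h1, t_add L _ _ (hc 0 (by omega)), ih (fun k => c (k + 1)) (fun r hr => hc _ (by omega)),
      add_comm]

/-- the operator `Q ↦ a ^ r * D_r Q` -/
noncomputable def U (a r : ℕ) (Q : ℕ[X]) : ℕ[X] := C (a ^ r) * hasseDeriv r Q

theorem coeff_U (a r : ℕ) (Q : ℕ[X]) (j : ℕ) :
    (U a r Q).coeff j = a ^ r * ((j + r).choose r * Q.coeff (j + r)) := by
  rw [U, coeff_C_mul, hasseDeriv_coeff]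
  simp

theorem U_zero (a : ℕ) (Q : ℕ[X]) : U a 0 Q = Q := by
  ext j
  rw [coeff_U]
  simp

theorem U_comm (a r s : ℕ) : Function.Commute (U a r) (U a s) := by
  intro Q
  ext j
  simp only [coeff_U]
  have h1 : (j + r).choose r * (j + r + s).choose s = (j + s).choose s * (j + s + r).choose r := by
    have e1 := Nat.add_choose_mul_factorial_mul_factorial j r
    have e2 := Nat.add_choose_mul_factorial_mul_factorial (j + r) s
    have e3 := Nat.add_choose_mul_factorial_mul_factorial j s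
    have e4 := Nat.add_choose_mul_factorial_mul_factorial (j + s) r
    have hp : 0 < j.factorial * r.factorial * s.factorial := by positivity
    apply Nat.eq_of_mul_eq_mul_right hp
    have e5 : j + s + r = j + r + s := by ring
    calc (j + r).choose r * (j + r + s).choose s * (j.factorial * r.factorial * s.factorial)
        = (j + r + s).choose s * ((j + r).choose r * j.factorial * r.factorial) * s.factorial := by
          ring
      _ = (j + r + s).factorial := by rw [e1, e2]
      _ = (j + s + r).choose r * ((j + s).choose s * j.factorial * s.factorial) * r.factorial := by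
          rw [e3, e4, e5]
      _ = _ := by ring
  have e5 : j + s + r = j + r + s := by ring
  rw [e5] at h1 ⊢
  calc a ^ r * ((j + r).choose r * (a ^ s * ((j + r + s).choose s * Q.coeff (j + r + s))))
      = a ^ r * a ^ s * Q.coeff (j + r + s) * ((j + r).choose r * (j + r + s).choose s) := by ring
    _ = _ := by rw [h1]; ring

theorem natDegree_U_le (a r : ℕ) (Q : ℕ[X]) : (U a r Q).natDegree ≤ Q.natDegree - r :=
  (natDegree_C_mul_le _ _).trans (natDegree_hasseDeriv_le _ _)

theorem natDegree_iter_le (a r m : ℕ) (Q : ℕ[X]) :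
    ((U a r)^[m] Q).natDegree ≤ Q.natDegree - r * m := by
  induction m with
  | zero => simp
  | succ m ih =>
    rw [Function.iterate_succ_apply']
    have := natDegree_U_le a r ((U a r)^[m] Q)
    have e : r * (m + 1) = r * m + r := by ring
    omega

theorem coeff_iter (a r m : ℕ) : ∃ κ : ℕ → ℕ, ∀ (Q : ℕ[X]) (j : ℕ),
    ((U a r)^[m] Q).coeff j = κ j * Q.coeff (j + r * m) := by
  induction m with
  | zero => exact ⟨fun _ => 1, fun Q j => by simp⟩
  | succ m ih =>
    obtain ⟨κ, hκ⟩ := ih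
    refine ⟨fun j => a ^ r * ((j + r).choose r * κ (j + r)), fun Q j => ?_⟩
    rw [Function.iterate_succ_apply', coeff_U, hκ]
    have e : j + r + r * m = j + r * (m + 1) := by ring
    rw [e]
    ring

theorem iter_congr (a r m : ℕ) (Q Q' : ℕ[X]) (h : ∀ j, r * m ≤ j → Q.coeff j = Q'.coeff j) :
    (U a r)^[m] Q = (U a r)^[m] Q' := by
  obtain ⟨κ, hκ⟩ := coeff_iter a r m
  ext j
  rw [hκ, hκ, h _ (by omega)]

theorem iter_one (a m : ℕ) (Q : ℕ[X]) :
    (U a 1)^[m] Q = C (a ^ m) * (derivative^[m] Q) := by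
  induction m with
  | zero => simp
  | succ m ih =>
    rw [Function.iterate_succ_apply', Function.iterate_succ_apply', ih, U, hasseDeriv_one',
      derivative_mul, derivative_C, zero_mul, zero_add, ← mul_assoc, ← C_mul, pow_one, ← pow_succ']

/-- one shift -/
theorem shift_one (d a n : ℕ) (Q : ℕ[X]) (hQ : Q.natDegree ≤ d) :
    ∃ L₀, ∀ L, L₀ ≤ L →
      t (Q.eval (n + a * 2 ^ L)) = ∑ r ∈ range (d + 1), t ((U a r Q).eval n) := by
  refine ⟨∑ r ∈ range (d + 1), (U a r Q).eval n, fun L hL => ?_⟩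
  have h1 : Q.eval (n + a * 2 ^ L) = ∑ r ∈ range (d + 1), (U a r Q).eval n * (2 ^ L) ^ r := by
    rw [add_comm, ← taylor_eval, eval_eq_sum_range' (n := d + 1) (by rw [natDegree_taylor]; omega)]
    refine sum_congr rfl fun r _ => ?_
    rw [taylor_coeff, U, eval_mul, eval_C, mul_pow]
    ring
  rw [h1, t_sum]
  intro r hr
  have h2 : (U a r Q).eval n ≤ ∑ r ∈ range (d + 1), (U a r Q).eval n :=
    single_le_sum (f := fun r => (U a r Q).eval n) (fun _ _ => Nat.zero_le _) (mem_range.mpr hr)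
  have h3 : L < 2 ^ L := Nat.lt_two_pow_self
  omega

theorem shift_fam (d a n : ℕ) (F : Finset ℕ[X]) (hF : ∀ Q ∈ F, Q.natDegree ≤ d) :
    ∃ n', ∀ Q ∈ F, t (Q.eval n') = ∑ r ∈ range (d + 1), t ((U a r Q).eval n) := by
  classical
  have h : ∀ Q : ℕ[X], ∃ L₀, Q ∈ F → ∀ L, L₀ ≤ L →
      t (Q.eval (n + a * 2 ^ L)) = ∑ r ∈ range (d + 1), t ((U a r Q).eval n) := by
    intro Q
    by_cases hQ : Q ∈ F
    · obtain ⟨L₀, h⟩ := shift_one d a n Q (hF Q hQ)
      exact ⟨L₀, fun _ => h⟩
    · exact ⟨0, fun h => absurd h hQ⟩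
  choose L₀ hL₀ using h
  exact ⟨n + a * 2 ^ (F.sup L₀), fun Q hQ => hL₀ Q hQ _ (le_sup (f := L₀) hQ)⟩

theorem sum_symm (s : Finset ℕ) (f : ℕ → ℕ → ZMod 2) (hf : ∀ i j, f i j = f j i) :
    ∑ i ∈ s, ∑ j ∈ s, f i j = ∑ i ∈ s, f i i := by
  classical
  induction s using Finset.induction_on with
  | empty => simp
  | insert x s hx ih =>
    rw [sum_insert hx, sum_insert hx, sum_insert hx]
    simp only [sum_insert hx]
    rw [sum_add_distrib, ih]
    have h1 : ∑ i ∈ s, f i x = ∑ j ∈ s, f x j := sum_congr rfl fun i _ => hf i x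
    rw [h1]
    have h2 : ∀ z : ZMod 2, z + z = 0 := by decide
    linear_combination h2 (∑ j ∈ s, f x j)

/-- `2 ^ s` shifts by the same multiplier -/
theorem shift_pow (d a s : ℕ) : ∀ (n : ℕ) (F : Finset ℕ[X]), (∀ Q ∈ F, Q.natDegree ≤ d) →
    ∃ n', ∀ Q ∈ F, t (Q.eval n') = ∑ r ∈ range (d + 1), t (((U a r)^[2 ^ s] Q).eval n) := by
  classical
  induction s with
  | zero => intro n F hF; simpa using shift_fam d a n F hF
  | succ s ih =>
    intro n F hF
    obtain ⟨n₁, h₁⟩ := ih n ((F ×ˢ range (d + 1)).image fun p => (U a p.2)^[2 ^ s] p.1) (by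
      intro Q hQ
      obtain ⟨p, hp, rfl⟩ := mem_image.mp hQ
      have h1 := natDegree_iter_le a p.2 (2 ^ s) p.1
      have h2 := hF _ (mem_product.mp hp).1
      omega)
    obtain ⟨n₂, h₂⟩ := ih n₁ F hF
    refine ⟨n₂, fun Q hQ => ?_⟩
    rw [h₂ Q hQ]
    have h3 : ∀ r ∈ range (d + 1), t (((U a r)^[2 ^ s] Q).eval n₁)
        = ∑ r' ∈ range (d + 1), t (((U a r')^[2 ^ s] ((U a r)^[2 ^ s] Q)).eval n) := by
      intro r hr
      exact h₁ _ (mem_image.mpr ⟨(Q, r), mem_product.mpr ⟨hQ, hr⟩, rfl⟩)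
    rw [sum_congr rfl h3, sum_symm]
    · refine sum_congr rfl fun r _ => ?_
      rw [← Function.iterate_add_apply, pow_succ, mul_two]
    · intro i j
      rw [((U_comm a i j).iterate_iterate (2 ^ s) (2 ^ s)) Q]

end Pool.Agent.H322Z.TM
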