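import Pool.Agent.H322Z.TM.Basic

set_option autoImplicit false

/-!
# Independence of the functions `x ↦ t (c x)` and polarisation
-/

namespace Pool.Agent.H322Z.TM

open Polynomial Finset

theorem indep_odd {ι : Type} (s : Finset ι) (o : ι → ℕ) (hodd : ∀ i ∈ s, Odd (o i))
    (hinj : Set.InjOn o s) (hne : s.Nonempty) : ∃ x, ∑ i ∈ s, t (o i * x) ≠ 0 := by
  classical
  by_contra hcon
  push Not at hcon
  obtain ⟨i₀, hi₀, hmax⟩ := exists_max_image s o hne
  set c := o i₀ with hc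
  have hc1 : 1 ≤ c := (hodd i₀ hi₀).pos
  set L := c * c with hL
  have hL2 : c * c < 2 ^ L := Nat.lt_two_pow_self
  set y := 2 ^ L / c + 1 with hy
  have hdm := Nat.div_add_mod (2 ^ L) c
  have hml := Nat.mod_lt (2 ^ L) hc1
  have hcy : c * y = c * (2 ^ L / c) + c := by rw [hy]; ring
  have hyc : c ≤ 2 ^ L / c := (Nat.le_div_iff_mul_le hc1).mpr hL2.le
  have hcc : c ≤ c * c := Nat.le_mul_self c
  have hsmall : ∀ i ∈ s.erase i₀, o i * y < 2 ^ L := by
    intro i hi
    have h1 := hmax i (mem_of_mem_erase hi)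
    have h2 : o i ≠ c := fun h => (ne_of_mem_erase hi) (hinj (mem_of_mem_erase hi) hi₀ h)
    have h3 : o i + 1 ≤ c := by omega
    have h4 : (o i + 1) * y ≤ c * y := Nat.mul_le_mul_right _ h3
    have h5 : (o i + 1) * y = o i * y + y := by ring
    omega
  obtain ⟨e, he⟩ : ∃ e, c * y = 2 ^ L + e := ⟨c * y - 2 ^ L, by omega⟩
  have he2 : e < 2 ^ L := by omega
  have key : ∀ z, t (c * z + 1) + t (c * z) = t e + ∑ i ∈ s.erase i₀, t (o i * y) := by
    intro z
    have h1 := hcon (y + 2 ^ L * z)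
    have h2 := hcon z
    rw [← add_sum_erase s _ hi₀] at h1 h2
    have h3 : c * (y + 2 ^ L * z) = e + 2 ^ L * (c * z + 1) := by
      rw [mul_add, he]; ring
    have h4 : ∑ i ∈ s.erase i₀, t (o i * (y + 2 ^ L * z))
        = ∑ i ∈ s.erase i₀, t (o i * y) + ∑ i ∈ s.erase i₀, t (o i * z) := by
      rw [← sum_add_distrib]
      refine sum_congr rfl fun i hi => ?_
      have : o i * (y + 2 ^ L * z) = o i * y + 2 ^ L * (o i * z) := by ring
      rw [this, t_add L _ _ (hsmall i hi)]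
    rw [← hc] at h1 h2
    rw [h3, t_add L _ _ he2, h4] at h1
    have h5 : ∀ w : ZMod 2, w + w = 0 := by decide
    linear_combination h1 + h2 - h5 (t e) - h5 (∑ i ∈ s.erase i₀, t (o i * y))
      - h5 (∑ i ∈ s.erase i₀, t (o i * z))
  have k0 := key 0
  have k1 := key c
  obtain ⟨u, hu⟩ := hodd i₀ hi₀
  rw [← hc] at hu
  have e1 : c * c = 2 * (2 * (u * u + u)) + 1 := by rw [hu]; ring
  have e2 : c * c + 1 = 2 * (2 * (u * u + u) + 1) := by rw [hu]; ring
  rw [e2, e1, t_two_mul, t_two_mul_add_one, t_two_mul_add_one, t_two_mul] at k1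
  rw [mul_zero, zero_add, t_one, t_zero, ← k1] at k0
  have h6 : ∀ w : ZMod 2, ¬ (1 + 0 = w + 1 + (w + 1)) := by decide
  exact h6 _ k0

theorem indep {ι : Type} (s : Finset ι) (c : ι → ℕ) (hinj : Set.InjOn c s)
    (hlt : ∀ i ∈ s, ∀ j ∈ s, c i < 2 * c j) (hne : s.Nonempty) :
    ∃ x, ∑ i ∈ s, t (c i * x) ≠ 0 := by
  have h : ∀ i, ∃ k o : ℕ, i ∈ s → Odd o ∧ c i = 2 ^ k * o := by
    intro i
    by_cases hi : i ∈ s
    · have h1 := hlt i hi i hi
      obtain ⟨k, o, h2, h3⟩ := Nat.exists_eq_two_pow_mul_odd (n := c i) (by omega)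
      exact ⟨k, o, fun _ => ⟨h2, h3⟩⟩
    · exact ⟨0, 0, fun h => absurd h hi⟩
  choose k o hko using h
  have hinj' : Set.InjOn o s := by
    intro i hi j hj hij
    apply hinj hi hj
    have h1 := (hko i hi).2
    have h2 := (hko j hj).2
    have h3 := hlt i hi j hj
    have h4 := hlt j hj i hi
    rw [h1, h2, hij, ← mul_assoc, ← pow_succ'] at h3 h4
    have h5 := (Nat.pow_lt_pow_iff_right (by norm_num : 1 < 2)).mp (lt_of_mul_lt_mul_right' h3)
    have h6 := (Nat.pow_lt_pow_iff_right (by norm_num : 1 < 2)).mp (lt_of_mul_lt_mul_right' h4)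
    have h7 : k i = k j := by omega
    rw [h1, h2, hij, h7]
  obtain ⟨x, hx⟩ := indep_odd s o (fun i hi => (hko i hi).1) hinj' hne
  refine ⟨x, ?_⟩
  have : ∑ i ∈ s, t (c i * x) = ∑ i ∈ s, t (o i * x) := by
    refine sum_congr rfl fun i hi => ?_
    rw [(hko i hi).2, mul_assoc, t_two_pow_mul]
  rwa [this]

theorem polar_step {ι : Type} (s : Finset ι) (Q : ι → ℕ[X]) (d : ℕ)
    (hd : ∀ i ∈ s, (Q i).natDegree ≤ d) (h : ∀ n, ∑ i ∈ s, t ((Q i).eval n) = 0) (a n : ℕ) :
    ∑ p ∈ s ×ˢ range d, t ((U a (p.2 + 1) (Q p.1)).eval n) = 0 := by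
  classical
  obtain ⟨n', hn'⟩ := shift_fam d a n (s.image Q) (by
    intro R hR
    obtain ⟨i, hi, rfl⟩ := mem_image.mp hR
    exact hd i hi)
  have h1 := h n'
  have h2 : ∑ i ∈ s, t ((Q i).eval n')
      = ∑ i ∈ s, (∑ r ∈ range d, t ((U a (r + 1) (Q i)).eval n) + t ((Q i).eval n)) := by
    refine sum_congr rfl fun i hi => ?_
    rw [hn' _ (mem_image_of_mem Q hi), sum_range_succ', U_zero]
  rw [h2, sum_add_distrib, h n, add_zero] at h1
  rw [sum_product]
  exact h1

theorem polar (e : ℕ) : ∀ {ι : Type} (s : Finset ι) (Q : ι → ℕ[X]),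
    (∀ i ∈ s, (Q i).natDegree ≤ e + 1) → (∀ n, ∑ i ∈ s, t ((Q i).eval n) = 0) →
    ∀ x, ∑ i ∈ s, t ((e + 1).factorial * (Q i).coeff (e + 1) * x) = 0 := by
  induction e with
  | zero =>
    intro ι s Q hd h x
    have h1 := polar_step s Q 1 hd h x 0
    rw [sum_product] at h1
    rw [← h1]
    refine sum_congr rfl fun i _ => ?_
    rw [sum_range_one, ← coeff_zero_eq_eval_zero, coeff_U]
    simp [mul_comm]
  | succ e ih =>
    intro ι s Q hd h x
    have h1 := ih (s ×ˢ range (e + 2)) (fun p => U 1 (p.2 + 1) (Q p.1)) (by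
      intro p hp
      have h1 := natDegree_U_le 1 (p.2 + 1) (Q p.1)
      have h2 := hd _ (mem_product.mp hp).1
      omega) (fun n => polar_step s Q (e + 2) hd h 1 n) x
    rw [sum_product] at h1
    rw [← h1]
    refine sum_congr rfl fun i hi => ?_
    rw [sum_range_succ', sum_eq_zero, zero_add, coeff_U]
    · congr 1
      simp only [zero_add, one_pow, one_mul, Nat.choose_one_right]
      rw [Nat.factorial_succ (e + 1)]
      ring
    · intro r _
      rw [coeff_U, coeff_eq_zero_of_natDegree_lt (p := Q i) (by have := hd i hi; omega)]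
      simp [t_zero]

theorem indep_pow {ι : Type} (s : Finset ι) (c : ι → ℕ) (hinj : Set.InjOn c s)
    (hlt : ∀ i ∈ s, ∀ j ∈ s, c i < 2 * c j) (hne : s.Nonempty) (μ : ℕ) (hμ : 1 ≤ μ) :
    ∃ a, ∑ i ∈ s, t (a ^ μ * c i) ≠ 0 := by
  by_contra hcon
  push Not at hcon
  obtain ⟨e, rfl⟩ : ∃ e, μ = e + 1 := ⟨μ - 1, by omega⟩
  have h1 := polar e s (fun i => monomial (e + 1) (c i)) (fun i _ => natDegree_monomial_le _) (by
    intro n
    rw [← hcon n]
    refine sum_congr rfl fun i _ => ?_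
    rw [eval_monomial, mul_comm])
  have hp := Nat.factorial_pos (e + 1)
  obtain ⟨x, hx⟩ := indep s (fun i => (e + 1).factorial * c i)
    (fun i hi j hj hij => hinj hi hj (Nat.eq_of_mul_eq_mul_left hp hij))
    (fun i hi j hj => by
      have := Nat.mul_lt_mul_of_pos_left (hlt i hi j hj) hp
      calc (e + 1).factorial * c i < (e + 1).factorial * (2 * c j) := this
        _ = _ := by ring) hne
  apply hx
  rw [← h1 x]
  refine sum_congr rfl fun i _ => ?_
  rw [coeff_monomial_same]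

end Pool.Agent.H322Z.TM
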