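import Pool.Agent.H322Z.TM.Indep

set_option autoImplicit false

/-!
# Every binary word occurs in the Thue–Morse sequence along a polynomial of degree at least two
-/

namespace Pool.Agent.H322Z.TM

open Polynomial Finset

/-- achievable vectors, up to a constant -/
def Ach {k : ℕ} (μ : ℕ) (Q : Fin k → ℕ[X]) (w : Fin k → ZMod 2) : Prop :=
  ∀ F : Finset ℕ[X], (∀ R ∈ F, R.natDegree ≤ μ) →
    ∃ (n : ℕ) (c : ZMod 2) (κ : ℕ → ZMod 2),
      (∀ i, t ((Q i).eval n) = t ((Q i).eval 0) + w i + c) ∧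
      ∀ R ∈ F, t (R.eval n) = t (R.eval 0) + κ (R.coeff μ)

theorem ach_zero {k : ℕ} (μ : ℕ) (Q : Fin k → ℕ[X]) : Ach μ Q 0 :=
  fun _ _ => ⟨0, 0, fun _ => 0, fun _ => by simp, fun _ _ => by simp⟩

theorem ach_step {k : ℕ} (s d : ℕ) (Q : Fin k → ℕ[X]) (Q₀ : ℕ[X]) (hd1 : 2 ^ s ≤ d)
    (hd2 : d ≤ 2 * 2 ^ s) (hQ : ∀ i, (Q i).natDegree ≤ d)
    (hQ₀ : ∀ i j, d ≤ j → (Q i).coeff j = Q₀.coeff j) (w : Fin k → ZMod 2)
    (hw : Ach (2 ^ s) Q w) (a : ℕ) :
    Ach (2 ^ s) Q (w + fun i => t (((U a 1)^[2 ^ s] (Q i)).eval 0)) := by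
  classical
  intro F hF
  set μ := 2 ^ s with hμ
  have hμ1 : 1 ≤ μ := Nat.one_le_two_pow
  obtain ⟨n, c, κ, h1, h2⟩ := hw (F ∪ univ.image fun i => (U a 1)^[μ] (Q i)) (by
    intro R hR
    rcases mem_union.mp hR with hR | hR
    · exact hF R hR
    · obtain ⟨i, _, rfl⟩ := mem_image.mp hR
      have h1 := natDegree_iter_le a 1 μ (Q i)
      have h2 := hQ i
      omega)
  obtain ⟨n', hn'⟩ := shift_pow d a s n (F ∪ univ.image Q) (by
    intro R hR
    rcases mem_union.mp hR with hR | hR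
    · exact (hF R hR).trans hd1
    · obtain ⟨i, _, rfl⟩ := mem_image.mp hR
      exact hQ i)
  obtain ⟨e, rfl⟩ : ∃ e, d = e + 1 := ⟨d - 1, by omega⟩
  have hid : ∀ R : ℕ[X], (U a 0)^[μ] R = R := fun R =>
    Function.iterate_fixed (U_zero a R) μ
  refine ⟨n', c + κ (((U a 1)^[μ] Q₀).coeff μ)
      + ∑ r ∈ range e, t (((U a (r + 1 + 1))^[μ] Q₀).eval n),
    fun x => κ x + ∑ r ∈ range (e + 1), t (((U a (r + 1))^[μ] (monomial μ x)).eval n),
    fun i => ?_, fun R hR => ?_⟩
  · rw [hn' _ (mem_union_right _ (mem_image_of_mem Q (mem_univ i))), sum_range_succ',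
      sum_range_succ', ← hμ, hid, h1 i, zero_add,
      h2 _ (mem_union_right _ (mem_image_of_mem (fun i => (U a 1)^[μ] (Q i)) (mem_univ i)))]
    have h3 : ∑ r ∈ range e, t (((U a (r + 1 + 1))^[μ] (Q i)).eval n)
        = ∑ r ∈ range e, t (((U a (r + 1 + 1))^[μ] Q₀).eval n) := by
      refine sum_congr rfl fun r _ => ?_
      rw [iter_congr a (r + 1 + 1) μ (Q i) Q₀ (fun j hj => hQ₀ i j (by nlinarith))]
    have h4 : ((U a 1)^[μ] (Q i)).coeff μ = ((U a 1)^[μ] Q₀).coeff μ := by
      obtain ⟨κ', hκ'⟩ := coeff_iter a 1 μ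
      rw [hκ', hκ', hQ₀ i _ (by omega)]
    rw [h3, h4, Pi.add_apply]
    ring
  · rw [hn' _ (mem_union_left _ hR), sum_range_succ', ← hμ, hid, h2 R (mem_union_left _ hR)]
    have h3 : ∑ r ∈ range (e + 1), t (((U a (r + 1))^[μ] R).eval n)
        = ∑ r ∈ range (e + 1), t (((U a (r + 1))^[μ] (monomial μ (R.coeff μ))).eval n) := by
      refine sum_congr rfl fun r _ => ?_
      rw [iter_congr a (r + 1) μ R (monomial μ (R.coeff μ))]
      intro j hj
      rw [coeff_monomial]
      split_ifs with h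
      · rw [h]
      · exact coeff_eq_zero_of_natDegree_lt (by have := hF R hR; have : μ ≤ j := by nlinarith
                                                omega)
    rw [h3]
    ring

theorem span_top {k : ℕ} (c : Fin k → ℕ) (hinj : Function.Injective c)
    (hlt : ∀ i j, c i < 2 * c j) (μ : ℕ) (hμ : 1 ≤ μ) :
    Submodule.span (ZMod 2) (Set.range fun a : ℕ => fun i : Fin k => t (a ^ μ * c i)) = ⊤ := by
  classical
  by_contra hne
  obtain ⟨f, hf0, hf⟩ := Submodule.exists_le_ker_of_lt_top _ (lt_top_iff_ne_top.mpr hne)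
  have hrep : ∀ x : Fin k → ZMod 2,
      f x = ∑ i ∈ univ.filter (fun i => f (Pi.single i 1) = 1), x i := by
    intro x
    rw [LinearMap.pi_apply_eq_sum_univ, sum_filter]
    refine sum_congr rfl fun i _ => ?_
    have h1 : (fun j => if i = j then (1 : ZMod 2) else 0) = Pi.single i 1 := by
      ext j
      rw [Pi.single_apply]
      simp [eq_comm]
    rw [h1]
    have h2 : ∀ z : ZMod 2, z = 0 ∨ z = 1 := by decide
    rcases h2 (f (Pi.single i 1)) with h | h
    · simp [h]
    · simp [h]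
  have hne' : (univ.filter (fun i => f (Pi.single i 1) = 1)).Nonempty := by
    by_contra h
    rw [not_nonempty_iff_eq_empty] at h
    apply hf0
    ext1 x
    ext
    rw [LinearMap.comp_apply, hrep, h]
    simp
  obtain ⟨a, ha⟩ := indep_pow _ c hinj.injOn (fun i _ j _ => hlt i j) hne' μ hμ
  apply ha
  rw [← hrep (fun i => t (a ^ μ * c i))]
  exact hf (Submodule.subset_span ⟨a, rfl⟩)

theorem pow_growth (k e m : ℕ) (hm : 4 * e * k + 1 ≤ m) :
    ∀ j ≤ e, (m + k) ^ j * m ≤ m ^ j * (m + 2 * j * k) := by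
  intro j
  induction j with
  | zero => intro _; simp
  | succ j ih =>
    intro hj
    have h1 := ih (by omega)
    have h2 : 2 * j * k ≤ m := by nlinarith
    calc (m + k) ^ (j + 1) * m = (m + k) ^ j * m * (m + k) := by ring
      _ ≤ m ^ j * (m + 2 * j * k) * (m + k) := Nat.mul_le_mul_right _ h1
      _ = m ^ j * ((m + 2 * j * k) * (m + k)) := by ring
      _ ≤ m ^ j * (m * (m + 2 * (j + 1) * k)) := by
          apply Nat.mul_le_mul_left
          nlinarith [Nat.mul_le_mul_right k h2]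
      _ = _ := by ring

theorem eval_strictMono (R : ℕ[X]) (hR : 1 ≤ R.natDegree) : StrictMono fun n : ℕ => R.eval n := by
  intro x y hxy
  simp only [eval_eq_sum_range]
  have hR0 : R ≠ 0 := by rintro rfl; simp at hR
  refine sum_lt_sum (fun j _ => Nat.mul_le_mul_left _ (Nat.pow_le_pow_left hxy.le _))
    ⟨R.natDegree, mem_range.mpr (by omega), ?_⟩
  exact Nat.mul_lt_mul_of_pos_left (Nat.pow_lt_pow_left hxy (by omega))
    (Nat.pos_of_ne_zero (leadingCoeff_ne_zero.mpr hR0))

theorem window (R : ℕ[X]) (hR : 1 ≤ R.natDegree) (k : ℕ) :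
    ∃ m : ℕ, ∀ i j : Fin k, R.eval (m + (i : ℕ)) < 2 * R.eval (m + (j : ℕ)) := by
  refine ⟨4 * R.natDegree * k + 1, fun i j => ?_⟩
  set m := 4 * R.natDegree * k + 1 with hm
  have hmono := eval_strictMono R hR
  have h1 : R.eval (m + i) ≤ R.eval (m + k) := hmono.monotone (by omega)
  have h2 : R.eval m ≤ R.eval (m + j) := hmono.monotone (by omega)
  have h3 : R.eval 0 < R.eval m := hmono (by omega)
  have h4 : 2 * R.eval (m + k) ≤ 3 * R.eval m := by
    simp only [eval_eq_sum_range, mul_sum]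
    refine sum_le_sum fun l hl => ?_
    have h5 := pow_growth k R.natDegree m le_rfl l (by have := mem_range.mp hl; omega)
    have h6 : 4 * l * k ≤ m := by
      have : l ≤ R.natDegree := by have := mem_range.mp hl; omega
      have := Nat.mul_le_mul_right k (Nat.mul_le_mul_left 4 this)
      omega
    have h7 : 2 * (m + k) ^ l ≤ 3 * m ^ l := by
      have hm0 : 0 < m := by omega
      apply Nat.le_of_mul_le_mul_right _ hm0
      calc 2 * (m + k) ^ l * m = 2 * ((m + k) ^ l * m) := by ring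
        _ ≤ 2 * (m ^ l * (m + 2 * l * k)) := Nat.mul_le_mul_left _ h5
        _ = m ^ l * (2 * m + 4 * l * k) := by ring
        _ ≤ m ^ l * (3 * m) := Nat.mul_le_mul_left _ (by omega)
        _ = _ := by ring
    calc 2 * (R.coeff l * (m + k) ^ l) = R.coeff l * (2 * (m + k) ^ l) := by ring
      _ ≤ R.coeff l * (3 * m ^ l) := Nat.mul_le_mul_left _ h7
      _ = _ := by ring
  omega

theorem nat_const (P : ℕ[X]) (hd : 2 ≤ P.natDegree) (k : ℕ) (w : Fin k → ZMod 2) :
    ∃ (n : ℕ) (c : ZMod 2), ∀ i : Fin k, t (P.eval (n + i)) = w i + c := by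
  classical
  set d := P.natDegree with hdd
  obtain ⟨s, hs1, hs2⟩ : ∃ s, 2 ^ s ≤ d - 1 ∧ d - 1 < 2 ^ (s + 1) :=
    ⟨Nat.log 2 (d - 1), Nat.pow_log_le_self 2 (by omega), Nat.lt_pow_succ_log_self (by norm_num) _⟩
  rw [pow_succ] at hs2
  set μ := 2 ^ s with hμ
  have hμ1 : 1 ≤ μ := Nat.one_le_two_pow
  have hR : 1 ≤ (hasseDeriv μ P).natDegree := by
    rw [natDegree_hasseDeriv]; omega
  obtain ⟨m, hm⟩ := window _ hR k
  set Q : Fin k → ℕ[X] := fun i => taylor (m + i) P with hQ
  set c : Fin k → ℕ := fun i => μ.factorial * (hasseDeriv μ P).eval (m + i) with hc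
  have hp := Nat.factorial_pos μ
  have hv : ∀ a i, ((U a 1)^[μ] (Q i)).eval 0 = a ^ μ * c i := by
    intro a i
    rw [iter_one, eval_mul, eval_C, ← coeff_zero_eq_eval_zero, coeff_iterate_derivative, zero_add,
      Nat.descFactorial_self, smul_eq_mul, taylor_coeff]
  have hspan := span_top c (fun i j hij => by
      have h1 := Nat.eq_of_mul_eq_mul_left hp hij
      have h2 := (eval_strictMono _ hR).injective h1
      exact Fin.ext (by omega))
    (fun i j => by
      have := Nat.mul_lt_mul_of_pos_left (hm i j) hp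
      calc c i < μ.factorial * (2 * (hasseDeriv μ P).eval (m + j)) := this
        _ = _ := by rw [hc]; ring) μ hμ1
  have hall : ∀ u : Fin k → ZMod 2, ∀ v, Ach μ Q v → Ach μ Q (v + u) := by
    intro u
    have hu : u ∈ Submodule.span (ZMod 2)
        (Set.range fun a : ℕ => fun i : Fin k => t (a ^ μ * c i)) := by
      rw [hspan]; trivial
    induction hu using Submodule.span_induction with
    | mem x hx =>
      obtain ⟨a, rfl⟩ := hx
      intro v hv'
      have := ach_step s d Q P (by omega) (by omega) (fun i => by rw [hQ, natDegree_taylor])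
        (fun i j hj => by
          rcases eq_or_lt_of_le hj with h | h
          · rw [← h, hQ, coeff_taylor_natDegree, leadingCoeff]
          · rw [coeff_eq_zero_of_natDegree_lt (by rw [hQ, natDegree_taylor]; exact h),
              coeff_eq_zero_of_natDegree_lt h]) v hv' a
      simpa only [← hμ, hv] using this
    | zero => intro v hv'; simpa using hv'
    | add x y _ _ hx hy => intro v hv'; rw [← add_assoc]; exact hy _ (hx v hv')
    | smul z x _ hx =>
      intro v hv'
      have h2 : ∀ z : ZMod 2, z = 0 ∨ z = 1 := by decide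
      rcases h2 z with rfl | rfl
      · simpa using hv'
      · simpa using hx v hv'
  obtain ⟨n, c', -, h1, -⟩ := hall (fun i => w i + t ((Q i).eval 0)) 0 (ach_zero μ Q) ∅ (by simp)
  refine ⟨n + m, c', fun i => ?_⟩
  have h2 := h1 i
  have h3 : (Q i).eval n = P.eval (n + m + i) := by rw [hQ, taylor_eval, add_assoc]
  rw [h3] at h2
  rw [h2]
  have h5 : ∀ z : ZMod 2, z + z = 0 := by decide
  simp only [Pi.add_apply, Pi.zero_apply]
  linear_combination h5 (t ((Q i).eval 0))

theorem nat_main (P : ℕ[X]) (hd : 2 ≤ P.natDegree) (k : ℕ) (w : Fin k → ZMod 2) :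
    ∃ n : ℕ, ∀ i : Fin k, t (P.eval (n + i)) = w i := by
  obtain ⟨n, c, h⟩ := nat_const P hd (k + k) (Fin.append w (fun i => w i + 1))
  have h2 : ∀ z : ZMod 2, z = 0 ∨ z = 1 := by decide
  rcases h2 c with rfl | rfl
  · refine ⟨n, fun i => ?_⟩
    have := h (Fin.castAdd k i)
    rw [Fin.append_left] at this
    simpa using this
  · refine ⟨n + k, fun i => ?_⟩
    have := h (Fin.natAdd k i)
    rw [Fin.append_right, Fin.val_natAdd, ← add_assoc] at this
    rw [this]
    have h5 : ∀ z : ZMod 2, z + 1 + 1 = z := by decide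
    exact h5 _

theorem eventually_nonneg (R : ℤ[X]) (hR : 0 ≤ R.leadingCoeff) :
    ∀ᶠ n : ℕ in Filter.atTop, 0 ≤ R.eval (n : ℤ) := by
  rcases Nat.eq_zero_or_pos R.natDegree with h | h
  · rw [eq_C_of_natDegree_eq_zero h] at hR ⊢
    rw [leadingCoeff_C] at hR
    exact Filter.Eventually.of_forall fun n => by simpa using hR
  · have hinj : Function.Injective (Int.castRingHom ℝ) := Int.cast_injective
    have h1 := tendsto_atTop_of_leadingCoeff_nonneg (R.map (Int.castRingHom ℝ))
      (by rw [degree_map_eq_of_injective hinj]; exact natDegree_pos_iff_degree_pos.mp h)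
      (by rw [leadingCoeff_map_of_injective hinj]; simpa using hR)
    have h2 := (h1.comp tendsto_natCast_atTop_atTop).eventually_ge_atTop 0
    filter_upwards [h2] with n hn
    have h3 : (R.map (Int.castRingHom ℝ)).eval (n : ℝ) = ((R.eval (n : ℤ) : ℤ) : ℝ) := by
      simp
    simp only [Function.comp_apply] at hn
    rw [h3] at hn
    exact_mod_cast hn

theorem lead_nonneg (P : ℤ[X]) (hd : 1 ≤ P.natDegree) (hP : ∀ n : ℕ, 0 ≤ P.eval (n : ℤ)) :
    0 ≤ P.leadingCoeff := by
  by_contra hneg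
  push Not at hneg
  have h0 : 0 ≤ (-P - 1).leadingCoeff := by
    have h1 : (1 : ℤ[X]).degree < (-P).degree := by
      rw [degree_neg, degree_one]; exact natDegree_pos_iff_degree_pos.mp hd
    rw [leadingCoeff_sub_of_degree_lt h1, leadingCoeff_neg]
    omega
  obtain ⟨n, hn⟩ := (eventually_nonneg _ h0).exists
  have := hP n
  simp only [eval_sub, eval_neg, eval_one] at hn
  omega

theorem int_main (P : ℤ[X]) (hd : 2 ≤ P.natDegree) (hP : ∀ n : ℕ, 0 ≤ P.eval (n : ℤ))
    (k : ℕ) (w : Fin k → ZMod 2) :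
    ∃ n : ℕ, ∀ i : Fin k, t (P.eval ((n + i : ℕ) : ℤ)).toNat = w i := by
  have hl := lead_nonneg P (by omega) hP
  have h1 : ∀ᶠ m : ℕ in Filter.atTop, ∀ j ∈ range (P.natDegree + 1),
      0 ≤ (hasseDeriv j P).eval (m : ℤ) := by
    rw [Filter.eventually_all_finset]
    intro j hj
    apply eventually_nonneg
    rw [leadingCoeff, natDegree_hasseDeriv, hasseDeriv_coeff,
      Nat.sub_add_cancel (by have := mem_range.mp hj; omega)]
    exact mul_nonneg (Nat.cast_nonneg _) hl
  obtain ⟨m, hm⟩ := h1.exists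
  have h2 : taylor (m : ℤ) P ∈ lifts (Nat.castRingHom ℤ) := by
    rw [lifts_iff_coeff_lifts]
    intro j
    have h3 : 0 ≤ (taylor (m : ℤ) P).coeff j := by
      by_cases hj : j ≤ P.natDegree
      · rw [taylor_coeff]; exact hm j (mem_range.mpr (by omega))
      · rw [coeff_eq_zero_of_natDegree_lt (by rw [natDegree_taylor]; omega)]
    exact ⟨((taylor (m : ℤ) P).coeff j).toNat, by simpa using h3⟩
  obtain ⟨Q, hQ⟩ := (mem_lifts _).mp h2
  have hinj : Function.Injective (Nat.castRingHom ℤ) := Nat.cast_injective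
  have h4 : Q.natDegree = P.natDegree := by
    rw [← natDegree_map_eq_of_injective hinj, hQ, natDegree_taylor]
  obtain ⟨n, hn⟩ := nat_main Q (by omega) k w
  refine ⟨n + m, fun i => ?_⟩
  rw [← hn i]
  congr 1
  have h5 : P.eval ((n + m + i : ℕ) : ℤ) = ((Q.eval (n + i) : ℕ) : ℤ) := by
    have h6 := eval_map_apply (p := Q) (Nat.castRingHom ℤ) (n + i)
    rw [hQ, taylor_eval] at h6
    simp only [eq_natCast] at h6
    rw [← h6]
    congr 1
    push_cast
    ring
  rw [h5, Int.toNat_natCast]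

end Pool.Agent.H322Z.TM
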